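import Pool.Agent.J4H61.QB.Stm4

/-! Project QB (helper61), piece SD (helper98): Schwinger-Dyson equations for the Haar measure. -/

set_option autoImplicit false

open Matrix MeasureTheory
open scoped ComplexOrder

namespace Pool.Agent.J4H98.QB

open Pool.Agent.V11219.MomentOp Pool.Agent.J4H61.QB

abbrev Ug (d : ℕ) : Type := Matrix.unitaryGroup (Fin d) ℂ

theorem integ {d : ℕ} {f : Ug d → ℂ} (hf : Continuous f) : Integrable f (haarU (Fin d)) :=
  hf.integrable_of_hasCompactSupport (HasCompactSupport.of_compactSpace f)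

theorem rinv (d : ℕ) : (haarU (Fin d)).IsMulRightInvariant := by
  constructor
  intro g
  have hm : Measurable (fun x : Ug d => x * g) := measurable_mul_const g
  have : IsProbabilityMeasure (Measure.map (· * g) (haarU (Fin d))) :=
    Measure.isProbabilityMeasure_map hm.aemeasurable
  exact Measure.isHaarMeasure_eq_of_isProbabilityMeasure _ _

/-- the abstract form: differentiate at `θ = 0` -/
theorem core {d : ℕ} (t : ℕ) (a p b q : Ug d → ℂ) (ha : Continuous a) (hp : Continuous p)
    (hb : Continuous b) (hq : Continuous q) (C : ℂ)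
    (H : ∀ θ : ℝ, ∫ U, (a U + (Complex.exp (θ * Complex.I) - 1) * p U) ^ (t + 1) *
      (b U + (Complex.exp (-(θ * Complex.I)) - 1) * q U) ^ (t + 1) ∂(haarU (Fin d)) = C) :
    ∫ U, a U ^ t * b U ^ (t + 1) * p U ∂(haarU (Fin d)) =
      ∫ U, a U ^ (t + 1) * b U ^ t * q U ∂(haarU (Fin d)) := by
  obtain ⟨Ma, hMa⟩ := isCompact_univ.exists_bound_of_continuousOn (ha.continuousOn (s := Set.univ))
  obtain ⟨Mp, hMp⟩ := isCompact_univ.exists_bound_of_continuousOn (hp.continuousOn (s := Set.univ))
  obtain ⟨Mb, hMb⟩ := isCompact_univ.exists_bound_of_continuousOn (hb.continuousOn (s := Set.univ))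
  obtain ⟨Mq, hMq⟩ := isCompact_univ.exists_bound_of_continuousOn (hq.continuousOn (s := Set.univ))
  obtain ⟨M, hM⟩ : ∃ M : ℝ, M = |Ma| + |Mp| + |Mb| + |Mq| := ⟨_, rfl⟩
  have bda : ∀ U, ‖a U‖ ≤ M := fun U => by
    have := hMa U trivial
    have h1 := le_abs_self Ma
    rw [hM]
    linarith [abs_nonneg Mp, abs_nonneg Mb, abs_nonneg Mq]
  have bdp : ∀ U, ‖p U‖ ≤ M := fun U => by
    have := hMp U trivial
    have h1 := le_abs_self Mp
    rw [hM]
    linarith [abs_nonneg Ma, abs_nonneg Mb, abs_nonneg Mq]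
  have bdb : ∀ U, ‖b U‖ ≤ M := fun U => by
    have := hMb U trivial
    have h1 := le_abs_self Mb
    rw [hM]
    linarith [abs_nonneg Ma, abs_nonneg Mp, abs_nonneg Mq]
  have bdq : ∀ U, ‖q U‖ ≤ M := fun U => by
    have := hMq U trivial
    have h1 := le_abs_self Mq
    rw [hM]
    linarith [abs_nonneg Ma, abs_nonneg Mp, abs_nonneg Mb]
  have hM0 : 0 ≤ M := by rw [hM]; positivity
  have nx : ∀ θ : ℝ, ‖Complex.exp (θ * Complex.I)‖ = 1 := fun θ => Complex.norm_exp_ofReal_mul_I θ
  have ny : ∀ θ : ℝ, ‖Complex.exp (-(θ * Complex.I))‖ = 1 := fun θ => by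
    have := Complex.norm_exp_ofReal_mul_I (-θ)
    rw [show (-(θ * Complex.I) : ℂ) = ((-θ : ℝ) : ℂ) * Complex.I by push_cast; ring]
    exact this
  let F : ℝ → Ug d → ℂ := fun θ U =>
    (a U + (Complex.exp (θ * Complex.I) - 1) * p U) ^ (t + 1) *
      (b U + (Complex.exp (-(θ * Complex.I)) - 1) * q U) ^ (t + 1)
  let F' : ℝ → Ug d → ℂ := fun θ U =>
    (((t + 1 : ℕ) : ℂ) * (a U + (Complex.exp (θ * Complex.I) - 1) * p U) ^ t *
      (Complex.exp (θ * Complex.I) * Complex.I * p U)) *
      (b U + (Complex.exp (-(θ * Complex.I)) - 1) * q U) ^ (t + 1) +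
    (a U + (Complex.exp (θ * Complex.I) - 1) * p U) ^ (t + 1) *
      (((t + 1 : ℕ) : ℂ) * (b U + (Complex.exp (-(θ * Complex.I)) - 1) * q U) ^ t *
      (Complex.exp (-(θ * Complex.I)) * (-Complex.I) * q U))
  have dx : ∀ θ : ℝ, HasDerivAt (fun θ : ℝ => Complex.exp (θ * Complex.I))
      (Complex.exp (θ * Complex.I) * Complex.I) θ := by
    intro θ
    have h1 : HasDerivAt (fun θ : ℝ => (θ : ℂ) * Complex.I) (1 * Complex.I) θ :=
      (Complex.ofRealCLM.hasDerivAt (x := θ)).mul_const Complex.I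
    have h2 := h1.cexp
    rw [one_mul] at h2
    exact h2
  have dy : ∀ θ : ℝ, HasDerivAt (fun θ : ℝ => Complex.exp (-(θ * Complex.I)))
      (Complex.exp (-(θ * Complex.I)) * (-Complex.I)) θ := by
    intro θ
    have h1 : HasDerivAt (fun θ : ℝ => (θ : ℂ) * Complex.I) (1 * Complex.I) θ :=
      (Complex.ofRealCLM.hasDerivAt (x := θ)).mul_const Complex.I
    have h2 := h1.neg.cexp
    rw [one_mul] at h2
    exact h2
  have hdiff : ∀ U, ∀ θ : ℝ, HasDerivAt (fun θ => F θ U) (F' θ U) θ := by
    intro U θ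
    have h1 := (((dx θ).sub_const 1).mul_const (p U)).const_add (a U)
    have h2 := (((dy θ).sub_const 1).mul_const (q U)).const_add (b U)
    have h3 := (h1.pow (t + 1)).mul (h2.pow (t + 1))
    exact h3
  have cF : ∀ θ : ℝ, Continuous (F θ) := fun θ => by
    have : Continuous fun U => (a U + (Complex.exp (θ * Complex.I) - 1) * p U) ^ (t + 1) *
      (b U + (Complex.exp (-(θ * Complex.I)) - 1) * q U) ^ (t + 1) := by fun_prop
    exact this
  have cF' : ∀ θ : ℝ, Continuous (F' θ) := fun θ => by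
    have : Continuous fun U => (((t + 1 : ℕ) : ℂ) *
      (a U + (Complex.exp (θ * Complex.I) - 1) * p U) ^ t *
      (Complex.exp (θ * Complex.I) * Complex.I * p U)) *
      (b U + (Complex.exp (-(θ * Complex.I)) - 1) * q U) ^ (t + 1) +
    (a U + (Complex.exp (θ * Complex.I) - 1) * p U) ^ (t + 1) *
      (((t + 1 : ℕ) : ℂ) * (b U + (Complex.exp (-(θ * Complex.I)) - 1) * q U) ^ t *
      (Complex.exp (-(θ * Complex.I)) * (-Complex.I) * q U)) := by fun_prop
    exact this
  have bd : ∀ U, ∀ θ : ℝ, ‖F' θ U‖ ≤ 2 * ((t + 1 : ℕ) * (3 * M) ^ t * M * (3 * M) ^ (t + 1)) := by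
    intro U θ
    have h1 : ‖a U + (Complex.exp (θ * Complex.I) - 1) * p U‖ ≤ 3 * M := by
      calc ‖a U + (Complex.exp (θ * Complex.I) - 1) * p U‖
          ≤ ‖a U‖ + ‖(Complex.exp (θ * Complex.I) - 1) * p U‖ := norm_add_le _ _
        _ ≤ M + 2 * M := by
            rw [norm_mul]
            have : ‖Complex.exp (θ * Complex.I) - 1‖ ≤ 2 := by
              calc ‖Complex.exp (θ * Complex.I) - 1‖ ≤ ‖Complex.exp (θ * Complex.I)‖ + ‖(1 : ℂ)‖ :=
                    norm_sub_le _ _
                _ = 2 := by rw [nx, norm_one]; norm_num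
            have h4 := bda U
            have h5 := mul_le_mul this (bdp U) (norm_nonneg _) (by norm_num : (0 : ℝ) ≤ 2)
            linarith
        _ = 3 * M := by ring
    have h2 : ‖b U + (Complex.exp (-(θ * Complex.I)) - 1) * q U‖ ≤ 3 * M := by
      calc ‖b U + (Complex.exp (-(θ * Complex.I)) - 1) * q U‖
          ≤ ‖b U‖ + ‖(Complex.exp (-(θ * Complex.I)) - 1) * q U‖ := norm_add_le _ _
        _ ≤ M + 2 * M := by
            rw [norm_mul]
            have : ‖Complex.exp (-(θ * Complex.I)) - 1‖ ≤ 2 := by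
              calc ‖Complex.exp (-(θ * Complex.I)) - 1‖ ≤
                    ‖Complex.exp (-(θ * Complex.I))‖ + ‖(1 : ℂ)‖ := norm_sub_le _ _
                _ = 2 := by rw [ny, norm_one]; norm_num
            have h4 := bdb U
            have h5 := mul_le_mul this (bdq U) (norm_nonneg _) (by norm_num : (0 : ℝ) ≤ 2)
            linarith
        _ = 3 * M := by ring
    have h3 : ‖Complex.exp (θ * Complex.I) * Complex.I * p U‖ ≤ M := by
      rw [norm_mul, norm_mul, nx, Complex.norm_I, one_mul, one_mul]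
      exact bdp U
    have h4 : ‖Complex.exp (-(θ * Complex.I)) * (-Complex.I) * q U‖ ≤ M := by
      rw [norm_mul, norm_mul, ny, norm_neg, Complex.norm_I, one_mul, one_mul]
      exact bdq U
    have h5 : ‖(((t + 1 : ℕ) : ℂ) * (a U + (Complex.exp (θ * Complex.I) - 1) * p U) ^ t *
      (Complex.exp (θ * Complex.I) * Complex.I * p U)) *
      (b U + (Complex.exp (-(θ * Complex.I)) - 1) * q U) ^ (t + 1)‖ ≤
        (t + 1 : ℕ) * (3 * M) ^ t * M * (3 * M) ^ (t + 1) := by
      rw [norm_mul, norm_mul, norm_mul, norm_pow, norm_pow, Complex.norm_natCast]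
      gcongr
    have h6 : ‖(a U + (Complex.exp (θ * Complex.I) - 1) * p U) ^ (t + 1) *
      (((t + 1 : ℕ) : ℂ) * (b U + (Complex.exp (-(θ * Complex.I)) - 1) * q U) ^ t *
      (Complex.exp (-(θ * Complex.I)) * (-Complex.I) * q U))‖ ≤
        (t + 1 : ℕ) * (3 * M) ^ t * M * (3 * M) ^ (t + 1) := by
      rw [norm_mul, norm_mul, norm_mul, norm_pow, norm_pow, Complex.norm_natCast, mul_comm]
      gcongr
    calc ‖F' θ U‖ ≤ _ := norm_add_le _ _
      _ ≤ _ := add_le_add h5 h6
      _ = _ := by ring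
  have main := hasDerivAt_integral_of_dominated_loc_of_deriv_le (μ := haarU (Fin d)) (F := F)
    (F' := F') (x₀ := (0 : ℝ)) (s := Set.univ)
    (bound := fun _ => 2 * ((t + 1 : ℕ) * (3 * M) ^ t * M * (3 * M) ^ (t + 1)))
    Filter.univ_mem (Filter.Eventually.of_forall fun θ => (integ (cF θ)).aestronglyMeasurable)
    (integ (cF 0)) (integ (cF' 0)).aestronglyMeasurable
    (Filter.Eventually.of_forall fun U θ _ => bd U θ) (integrable_const _)
    (Filter.Eventually.of_forall fun U θ _ => hdiff U θ)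
  have hconst : HasDerivAt (fun θ : ℝ => ∫ U, F θ U ∂(haarU (Fin d))) 0 0 := by
    have : (fun θ : ℝ => ∫ U, F θ U ∂(haarU (Fin d))) = fun _ => C := by
      funext θ
      exact H θ
    rw [this]
    exact hasDerivAt_const _ _
  have hz := main.2.unique hconst
  have e0 : ∀ U, F' 0 U = ((t + 1 : ℕ) : ℂ) * Complex.I * (a U ^ t * b U ^ (t + 1) * p U) -
      ((t + 1 : ℕ) : ℂ) * Complex.I * (a U ^ (t + 1) * b U ^ t * q U) := by
    intro U
    simp only [F', Complex.ofReal_zero, zero_mul, neg_zero, Complex.exp_zero, sub_self, add_zero,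
      one_mul]
    ring
  rw [integral_congr_ae (Filter.Eventually.of_forall e0)] at hz
  have i1 : Integrable (fun U => ((t + 1 : ℕ) : ℂ) * Complex.I * (a U ^ t * b U ^ (t + 1) * p U))
      (haarU (Fin d)) := integ (by fun_prop)
  have i2 : Integrable (fun U => ((t + 1 : ℕ) : ℂ) * Complex.I * (a U ^ (t + 1) * b U ^ t * q U))
      (haarU (Fin d)) := integ (by fun_prop)
  rw [integral_sub i1 i2, integral_const_mul, integral_const_mul, ← mul_sub] at hz
  have hne : ((t + 1 : ℕ) : ℂ) * Complex.I ≠ 0 :=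
    mul_ne_zero (by exact_mod_cast Nat.succ_ne_zero t) Complex.I_ne_zero
  exact sub_eq_zero.mp ((mul_eq_zero.mp hz).resolve_left hne)

/-- polarisation -/
theorem pol {d : ℕ} (γ : Fin d → Fin d → ℂ)
    (h : ∀ v : Fin d → ℂ, ∑ i, ∑ j, v i * star (v j) * γ i j = 0) (i₀ j₀ : Fin d) :
    γ i₀ j₀ = 0 := by
  have key : ∀ v w : Fin d → ℂ, ∑ i, ∑ j, v i * star (w j) * γ i j = 0 := by
    intro v w
    have e : (4 : ℂ) * ∑ i, ∑ j, v i * star (w j) * γ i j =
        (∑ i, ∑ j, (v + w) i * star ((v + w) j) * γ i j) -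
        (∑ i, ∑ j, (v - w) i * star ((v - w) j) * γ i j) +
        Complex.I * (∑ i, ∑ j, (v + Complex.I • w) i * star ((v + Complex.I • w) j) * γ i j) -
        Complex.I * (∑ i, ∑ j, (v - Complex.I • w) i * star ((v - Complex.I • w) j) * γ i j) := by
      simp only [Finset.mul_sum, ← Finset.sum_add_distrib, ← Finset.sum_sub_distrib]
      refine Finset.sum_congr rfl fun i _ => Finset.sum_congr rfl fun j _ => ?_
      simp only [Pi.add_apply, Pi.sub_apply, Pi.smul_apply, smul_eq_mul, star_add, star_sub,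
        star_mul', Complex.star_def, Complex.conj_I]
      ring_nf
      simp only [Complex.I_sq]
      ring
    rw [h, h, h, h] at e
    simp only [mul_zero, sub_self, add_zero] at e
    exact (mul_eq_zero.mp e).resolve_left (by norm_num)
  have := key (Pi.single i₀ 1) (Pi.single j₀ 1)
  rw [Finset.sum_eq_single i₀, Finset.sum_eq_single j₀] at this
  · simpa using this
  · intro j _ hj
    simp [Pi.single_eq_of_ne hj]
  · intro hj
    exact absurd (Finset.mem_univ _) hj
  · intro i _ hi
    simp [Pi.single_eq_of_ne hi]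
  · intro hi
    exact absurd (Finset.mem_univ _) hi

theorem lin {d : ℕ} (h : Ug d → ℂ) (hh : Continuous h) (Mf : Ug d → Mat d)
    (hM : ∀ i j, Continuous fun U => Mf U i j) (K : Mat d) :
    ∫ U, h U * Matrix.trace (K * Mf U) ∂(haarU (Fin d)) =
      ∑ i, ∑ j, K i j * ∫ U, h U * Mf U j i ∂(haarU (Fin d)) := by
  have h1 : ∀ U, h U * Matrix.trace (K * Mf U) = ∑ i, ∑ j, K i j * (h U * Mf U j i) := by
    intro U
    simp only [Matrix.trace, Matrix.diag, Matrix.mul_apply, Finset.mul_sum]
    refine Finset.sum_congr rfl fun i _ => Finset.sum_congr rfl fun j _ => ?_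
    ring
  have hint : ∀ i j, Integrable (fun U => K i j * (h U * Mf U j i)) (haarU (Fin d)) := fun i j =>
    integ (continuous_const.mul (hh.mul (hM j i)))
  rw [integral_congr_ae (Filter.Eventually.of_forall h1),
    integral_finsetSum _ fun i _ => integrable_finsetSum _ fun j _ => hint i j]
  refine Finset.sum_congr rfl fun i _ => ?_
  rw [integral_finsetSum _ fun j _ => hint i j]
  refine Finset.sum_congr rfl fun j _ => ?_
  rw [integral_const_mul]

/-- the rotations in a line -/
theorem rot {d : ℕ} (P : Mat d) (hP : P * P = P) (hs : star P = P) (θ : ℝ) :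
    (1 + (Complex.exp (θ * Complex.I) - 1) • P : Mat d) ∈ Matrix.unitaryGroup (Fin d) ℂ := by
  rw [Matrix.mem_unitaryGroup_iff]
  have e1 : star (Complex.exp (θ * Complex.I) - 1) = Complex.exp (-(θ * Complex.I)) - 1 := by
    rw [star_sub, star_one, Complex.star_def, ← Complex.exp_conj]
    simp
  rw [star_add, star_one, star_smul, e1, hs]
  have e2 : (Complex.exp (θ * Complex.I) - 1) + (Complex.exp (-(θ * Complex.I)) - 1) +
      (Complex.exp (θ * Complex.I) - 1) * (Complex.exp (-(θ * Complex.I)) - 1) = 0 := by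
    have : Complex.exp (θ * Complex.I) * Complex.exp (-(θ * Complex.I)) = 1 := by
      rw [← Complex.exp_add, add_neg_cancel, Complex.exp_zero]
    linear_combination this
  calc (1 + (Complex.exp (θ * Complex.I) - 1) • P) *
        (1 + (Complex.exp (-(θ * Complex.I)) - 1) • P)
      = 1 + ((Complex.exp (θ * Complex.I) - 1) + (Complex.exp (-(θ * Complex.I)) - 1) +
      (Complex.exp (θ * Complex.I) - 1) * (Complex.exp (-(θ * Complex.I)) - 1)) • P := by
        simp only [add_mul, mul_add, one_mul, mul_one, Matrix.smul_mul, Matrix.mul_smul, hP,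
          add_smul, smul_smul]
        rw [mul_comm (Complex.exp (-(θ * Complex.I)) - 1)]
        abel
    _ = 1 := by rw [e2, zero_smul, add_zero]

theorem rot_star {d : ℕ} (P : Mat d) (hs : star P = P) (θ : ℝ) :
    (1 + (Complex.exp (θ * Complex.I) - 1) • P : Mat d)ᴴ =
      1 + (Complex.exp (-(θ * Complex.I)) - 1) • P := by
  have e1 : star (Complex.exp (θ * Complex.I) - 1) = Complex.exp (-(θ * Complex.I)) - 1 := by
    rw [star_sub, star_one, Complex.star_def, ← Complex.exp_conj]
    simp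
  rw [← Matrix.star_eq_conjTranspose, star_add, star_one, star_smul, e1, hs]

theorem cU {d : ℕ} (i j : Fin d) : Continuous fun U : Ug d => (U : Mat d) i j :=
  continuous_subtype_val.matrix_elem i j

theorem ctr {d : ℕ} (A : Mat d) : Continuous fun U : Ug d => Matrix.trace (A * (U : Mat d)) := by
  simp only [Matrix.trace, Matrix.diag, Matrix.mul_apply]
  exact continuous_finsetSum _ fun i _ => continuous_finsetSum _ fun j _ =>
    continuous_const.mul (cU j i)

theorem ctrs {d : ℕ} (A : Mat d) : Continuous fun U : Ug d => Matrix.trace (A * (U : Mat d)ᴴ) := by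
  simp only [Matrix.trace, Matrix.diag, Matrix.mul_apply, Matrix.conjTranspose_apply]
  exact continuous_finsetSum _ fun i _ => continuous_finsetSum _ fun j _ =>
    continuous_const.mul (cU i j).star

theorem tr0 {d : ℕ} : Continuous fun U : Ug d => Matrix.trace (U : Mat d) := by
  have := ctr (1 : Mat d)
  simpa only [one_mul] using this

/-- left -/
theorem left {d : ℕ} (t : ℕ) (B P : Mat d) (hP : P * P = P) (hs : star P = P) :
    ∫ U : Ug d, Matrix.trace (U : Mat d) ^ t * Matrix.trace (B * (U : Mat d)ᴴ) ^ (t + 1) *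
        Matrix.trace (P * (U : Mat d)) ∂(haarU (Fin d)) =
      ∫ U : Ug d, Matrix.trace (U : Mat d) ^ (t + 1) * Matrix.trace (B * (U : Mat d)ᴴ) ^ t *
        Matrix.trace (P * (B * (U : Mat d)ᴴ)) ∂(haarU (Fin d)) := by
  have cq : Continuous fun U : Ug d => Matrix.trace (P * (B * (U : Mat d)ᴴ)) := by
    have := ctrs (P * B)
    simpa only [Matrix.mul_assoc] using this
  refine core t (fun U : Ug d => Matrix.trace (U : Mat d)) (fun U => Matrix.trace (P * (U : Mat d)))
    (fun U => Matrix.trace (B * (U : Mat d)ᴴ)) (fun U => Matrix.trace (P * (B * (U : Mat d)ᴴ)))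
    tr0 (ctr P) (ctrs B) cq
    (∫ U : Ug d, Matrix.trace (U : Mat d) ^ (t + 1) * Matrix.trace (B * (U : Mat d)ᴴ) ^ (t + 1)
      ∂(haarU (Fin d))) ?_
  intro θ
  let V : Ug d := ⟨1 + (Complex.exp (θ * Complex.I) - 1) • P, rot P hP hs θ⟩
  have := integral_mul_left_eq_self (μ := haarU (Fin d)) (fun U : Ug d =>
    Matrix.trace (U : Mat d) ^ (t + 1) * Matrix.trace (B * (U : Mat d)ᴴ) ^ (t + 1)) V
  rw [← this]
  refine integral_congr_ae (Filter.Eventually.of_forall fun U => ?_)
  have hV : ((V * U : Ug d) : Mat d) = (1 + (Complex.exp (θ * Complex.I) - 1) • P) * (U : Mat d) :=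
    rfl
  simp only [hV]
  congr 2
  · rw [add_mul, one_mul, Matrix.smul_mul, Matrix.trace_add, Matrix.trace_smul, smul_eq_mul]
  · rw [Matrix.conjTranspose_mul, rot_star P hs θ, Matrix.mul_add, Matrix.mul_one, Matrix.mul_add,
      Matrix.trace_add, Matrix.mul_smul, Matrix.mul_smul, Matrix.trace_smul, smul_eq_mul,
      ← Matrix.mul_assoc B, Matrix.trace_mul_comm (B * (U : Mat d)ᴴ) P]

/-- right -/
theorem right {d : ℕ} (t : ℕ) (B P : Mat d) (hP : P * P = P) (hs : star P = P) :
    ∫ U : Ug d, Matrix.trace (U : Mat d) ^ t * Matrix.trace (B * (U : Mat d)ᴴ) ^ (t + 1) *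
        Matrix.trace (P * (U : Mat d)) ∂(haarU (Fin d)) =
      ∫ U : Ug d, Matrix.trace (U : Mat d) ^ (t + 1) * Matrix.trace (B * (U : Mat d)ᴴ) ^ t *
        Matrix.trace (P * ((U : Mat d)ᴴ * B)) ∂(haarU (Fin d)) := by
  have := rinv d
  have cq : Continuous fun U : Ug d => Matrix.trace (P * ((U : Mat d)ᴴ * B)) := by
    have h1 := ctrs (B * P)
    have h2 : (fun U : Ug d => Matrix.trace (P * ((U : Mat d)ᴴ * B))) =
        fun U : Ug d => Matrix.trace (B * P * (U : Mat d)ᴴ) := by
      funext U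
      rw [← Matrix.mul_assoc, Matrix.trace_mul_comm, Matrix.mul_assoc]
    rw [h2]
    exact h1
  refine core t (fun U : Ug d => Matrix.trace (U : Mat d)) (fun U => Matrix.trace (P * (U : Mat d)))
    (fun U => Matrix.trace (B * (U : Mat d)ᴴ)) (fun U => Matrix.trace (P * ((U : Mat d)ᴴ * B)))
    tr0 (ctr P) (ctrs B) cq
    (∫ U : Ug d, Matrix.trace (U : Mat d) ^ (t + 1) * Matrix.trace (B * (U : Mat d)ᴴ) ^ (t + 1)
      ∂(haarU (Fin d))) ?_
  intro θ
  let V : Ug d := ⟨1 + (Complex.exp (θ * Complex.I) - 1) • P, rot P hP hs θ⟩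
  have := integral_mul_right_eq_self (μ := haarU (Fin d)) (fun U : Ug d =>
    Matrix.trace (U : Mat d) ^ (t + 1) * Matrix.trace (B * (U : Mat d)ᴴ) ^ (t + 1)) V
  rw [← this]
  refine integral_congr_ae (Filter.Eventually.of_forall fun U => ?_)
  have hV : ((U * V : Ug d) : Mat d) = (U : Mat d) * (1 + (Complex.exp (θ * Complex.I) - 1) • P) :=
    rfl
  simp only [hV]
  congr 2
  · rw [mul_add, mul_one, Matrix.mul_smul, Matrix.trace_add, Matrix.trace_smul, smul_eq_mul,
      Matrix.trace_mul_comm P]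
  · rw [Matrix.conjTranspose_mul, rot_star P hs θ, Matrix.add_mul, Matrix.one_mul, Matrix.mul_add,
      Matrix.trace_add, Matrix.smul_mul, Matrix.mul_smul, Matrix.trace_smul, smul_eq_mul]
    congr 2
    rw [← Matrix.mul_assoc P, Matrix.trace_mul_comm (P * (U : Mat d)ᴴ) B]

/-- from projections of rank one to all matrices -/
theorem ext {d : ℕ} (h1 h2 : Ug d → ℂ) (c1 : Continuous h1) (c2 : Continuous h2)
    (M1 M2 : Ug d → Mat d) (m1 : ∀ i j, Continuous fun U => M1 U i j)
    (m2 : ∀ i j, Continuous fun U => M2 U i j)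
    (H : ∀ P : Mat d, P * P = P → star P = P →
      ∫ U, h1 U * Matrix.trace (P * M1 U) ∂(haarU (Fin d)) =
        ∫ U, h2 U * Matrix.trace (P * M2 U) ∂(haarU (Fin d))) (K : Mat d) :
    ∫ U, h1 U * Matrix.trace (K * M1 U) ∂(haarU (Fin d)) =
        ∫ U, h2 U * Matrix.trace (K * M2 U) ∂(haarU (Fin d)) := by
  let γ : Fin d → Fin d → ℂ := fun i j => (∫ U, h1 U * M1 U j i ∂(haarU (Fin d))) -
    ∫ U, h2 U * M2 U j i ∂(haarU (Fin d))
  have hγ : ∀ v : Fin d → ℂ, ∑ i, ∑ j, v i * star (v j) * γ i j = 0 := by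
    intro v
    by_cases hv : v = 0
    · subst hv
      simp
    · obtain ⟨s, hs⟩ : ∃ s : ℂ, s = star v ⬝ᵥ v := ⟨_, rfl⟩
      have hs0 : s ≠ 0 := by
        rw [hs]
        intro h
        exact hv (dotProduct_star_self_eq_zero.mp h)
      have hss : star s = s := by
        rw [hs, ← Matrix.star_dotProduct_star, star_star, dotProduct_comm]
      let P : Mat d := s⁻¹ • Matrix.vecMulVec v (star v)
      have hPP : P * P = P := by
        show (s⁻¹ • Matrix.vecMulVec v (star v)) * (s⁻¹ • Matrix.vecMulVec v (star v)) = _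
        rw [Matrix.smul_mul, Matrix.mul_smul, Matrix.vecMulVec_mul_vecMulVec, ← hs]
        simp only [P, Matrix.vecMulVec_smul, smul_smul]
        congr 1
        field_simp
      have hPs : star P = P := by
        show star (s⁻¹ • Matrix.vecMulVec v (star v)) = _
        rw [star_smul, Matrix.star_eq_conjTranspose, Matrix.conjTranspose_vecMulVec, star_star,
          star_inv₀, hss]
      have h3 := H P hPP hPs
      rw [lin h1 c1 M1 m1 P, lin h2 c2 M2 m2 P] at h3
      have h4 : ∑ i, ∑ j, P i j * γ i j = 0 := by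
        simp only [γ, mul_sub, Finset.sum_sub_distrib]
        rw [h3, sub_self]
      have h5 : ∑ i, ∑ j, v i * star (v j) * γ i j = s * ∑ i, ∑ j, P i j * γ i j := by
        simp only [Finset.mul_sum]
        refine Finset.sum_congr rfl fun i _ => Finset.sum_congr rfl fun j _ => ?_
        simp only [P, Matrix.smul_apply, Matrix.vecMulVec_apply, smul_eq_mul, Pi.star_apply]
        field_simp
      rw [h5, h4, mul_zero]
  rw [lin h1 c1 M1 m1 K, lin h2 c2 M2 m2 K]
  refine Finset.sum_congr rfl fun i _ => Finset.sum_congr rfl fun j _ => ?_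
  have := pol γ hγ i j
  rw [sub_eq_zero.mp this]

theorem t_SD : S_SD := by
  intro d t K B
  have cBU : ∀ i j, Continuous fun U : Ug d => (B * (U : Mat d)ᴴ) i j := fun i j => by
    simp only [Matrix.mul_apply, Matrix.conjTranspose_apply]
    exact continuous_finsetSum _ fun k _ => continuous_const.mul (cU j k).star
  have cUB : ∀ i j, Continuous fun U : Ug d => ((U : Mat d)ᴴ * B) i j := fun i j => by
    simp only [Matrix.mul_apply, Matrix.conjTranspose_apply]
    exact continuous_finsetSum _ fun k _ => (cU k i).star.mul continuous_const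
  have c1 : Continuous fun U : Ug d => Matrix.trace (U : Mat d) ^ t *
      Matrix.trace (B * (U : Mat d)ᴴ) ^ (t + 1) := (tr0.pow t).mul ((ctrs B).pow (t + 1))
  have c2 : Continuous fun U : Ug d => Matrix.trace (U : Mat d) ^ (t + 1) *
      Matrix.trace (B * (U : Mat d)ᴴ) ^ t := (tr0.pow (t + 1)).mul ((ctrs B).pow t)
  have hl := ext _ _ c1 c2 (fun U : Ug d => (U : Mat d)) (fun U : Ug d => B * (U : Mat d)ᴴ)
    (fun i j => cU i j) cBU (fun P hP hs => left t B P hP hs) K
  have hr := ext _ _ c1 c2 (fun U : Ug d => (U : Mat d)) (fun U : Ug d => (U : Mat d)ᴴ * B)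
    (fun i j => cU i j) cUB (fun P hP hs => right t B P hP hs) K
  constructor
  · refine Eq.trans ?_ (hl.trans ?_)
    · refine integral_congr_ae (Filter.Eventually.of_forall fun U => ?_)
      simp only
      ring
    · refine integral_congr_ae (Filter.Eventually.of_forall fun U => ?_)
      simp only
      rw [← Matrix.mul_assoc]
      ring
  · refine Eq.trans ?_ (hr.trans ?_)
    · refine integral_congr_ae (Filter.Eventually.of_forall fun U => ?_)
      simp only
      ring
    · refine integral_congr_ae (Filter.Eventually.of_forall fun U => ?_)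
      simp only
      rw [show Matrix.trace (B * K * (U : Mat d)ᴴ) = Matrix.trace (K * ((U : Mat d)ᴴ * B)) by
        rw [← Matrix.mul_assoc, Matrix.trace_mul_comm (K * (U : Mat d)ᴴ) B, Matrix.mul_assoc]]
      ring

end Pool.Agent.J4H98.QB
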